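import Pool.Agent.K1H57.MC.PotA

set_option autoImplicit false

/-! The potential of the spheroid is smooth and harmonic, its gradient is not zero. -/

namespace Pool.Agent.K1H57.MC

open Pool.Agent.K1H62.MC
open MeasureTheory Filter Topology
open scoped ENNReal ContDiff

noncomputable section

/-- the potential as a function of `s` -/
def GG (r : ℝ) : ℝ := 1 - Real.log ((r + 2) / (r - 2)) / Real.log 3

lemma log3_pos : 0 < Real.log 3 := Real.log_pos (by norm_num)

lemma u_fun : u = fun x => GG (s x) := rfl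

lemma GG_deriv {r : ℝ} (h : 2 < r) : HasDerivAt GG (4 / Real.log 3 * (r ^ 2 - 4)⁻¹) r := by
  have h1 : 0 < r + 2 := by linarith
  have h2 : 0 < r - 2 := by linarith
  have h3 := log3_pos
  have a := (((hasDerivAt_id r).add_const 2).div ((hasDerivAt_id r).sub_const 2) h2.ne').log
    (div_pos h1 h2).ne'
  have b : HasDerivAt GG (-((1 * (r - 2) - (r + 2) * 1) / (r - 2) ^ 2 / ((r + 2) / (r - 2)) /
      Real.log 3)) r := (a.div_const (Real.log 3)).const_sub 1
  refine b.congr_deriv ?_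
  have h4 : r ^ 2 - 4 = (r + 2) * (r - 2) := by ring
  rw [h4]
  field_simp
  ring

lemma GG_smooth : ContDiffOn ℝ ∞ GG {r | 2 < r} := by
  intro r hr
  have hr' : 2 < r := hr
  have h1 : (0 : ℝ) < r + 2 := by linarith
  have h2 : (0 : ℝ) < r - 2 := by linarith
  apply ContDiffAt.contDiffWithinAt
  unfold GG
  have a : ContDiffAt ℝ ∞ (fun r : ℝ => (r + 2) / (r - 2)) r :=
    (contDiffAt_id.add contDiffAt_const).div (contDiffAt_id.sub contDiffAt_const) h2.ne'
  exact contDiffAt_const.sub ((a.log (div_pos h1 h2).ne').div_const _)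

lemma u_smooth : ContDiffOn ℝ ∞ u {x | 2 < s x} := by
  rw [u_fun]
  exact GG_smooth.comp s_smooth fun x hx => hx

lemma pd_u {x : E} (h : 2 < s x) (i : Fin 3) :
    pd i u x = 4 / Real.log 3 * (s x ^ 2 - 4)⁻¹ * pd i s x := by
  rw [u_fun]
  exact pd_comp (φ := GG) i (s_diff h) (GG_deriv h)

lemma sq_sub_pos {r : ℝ} (h : 2 < r) : 0 < r ^ 2 - 4 := by nlinarith

lemma pd_pd_u {x : E} (h : 2 < s x) (i j : Fin 3) :
    pd j (pd i u) x = 4 / Real.log 3 * ((s x ^ 2 - 4)⁻¹ * pd j (pd i s) x -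
      2 * s x * ((s x ^ 2 - 4) ^ 2)⁻¹ * (pd i s x * pd j s x)) := by
  have h0 := sq_sub_pos h
  have h1 : pd j (pd i u) x = pd j (fun y => 4 / Real.log 3 * ((s y ^ 2 - 4)⁻¹ * pd i s y)) x := by
    apply pd_congr_set (open_s 2) (fun y hy => ?_) h
    rw [pd_u hy i]; ring
  have hs := s_diff h
  have hp : DifferentiableAt ℝ (pd i s) x :=
    diff_of (open_s 2) (pd_smooth (open_s 2) s_smooth i) h
  have hφ : HasDerivAt (fun r : ℝ => (r ^ 2 - 4)⁻¹) (-(2 * s x) / (s x ^ 2 - 4) ^ 2) (s x) := by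
    have : HasDerivAt (fun r : ℝ => (r ^ 2 - 4)⁻¹) (-((2 : ℕ) * s x ^ (2 - 1)) / (s x ^ 2 - 4) ^ 2)
      (s x) := ((hasDerivAt_pow 2 (s x)).sub_const 4).inv h0.ne'
    refine this.congr_deriv ?_
    simp
  have hd : DifferentiableAt ℝ (fun y => (s y ^ 2 - 4)⁻¹) x :=
    (hφ.comp_hasFDerivAt x hs.hasFDerivAt).differentiableAt
  have hm : DifferentiableAt ℝ (fun y => (s y ^ 2 - 4)⁻¹ * pd i s y) x := hd.mul hp
  rw [h1, pd_const_mul j _ hm, pd_mul j hd hp,
    pd_comp (φ := fun r : ℝ => (r ^ 2 - 4)⁻¹) j hs hφ]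
  field_simp
  ring

lemma u_harm {x : E} (h : 2 < s x) : ∑ i, pd i (pd i u) x = 0 := by
  have h0 := sq_sub_pos h
  have h1 := NN_pos (ne_pp h)
  have h2 := NN_pos (ne_neg_pp h)
  have e : ∀ i ∈ (Finset.univ : Finset (Fin 3)), pd i (pd i u) x =
      4 / Real.log 3 * (s x ^ 2 - 4)⁻¹ * pd i (pd i s) x -
      4 / Real.log 3 * (2 * s x * ((s x ^ 2 - 4) ^ 2)⁻¹) * pd i s x ^ 2 := by
    intro i _
    rw [pd_pd_u h i i]; ring
  rw [Finset.sum_congr rfl e, Finset.sum_sub_distrib, ← Finset.mul_sum, ← Finset.mul_sum, lap_s h,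
    grad_s h]
  have h3 := log3_pos
  have e1 := s_eq x
  generalize s x = r at *
  subst e1
  field_simp
  ring

lemma u_grad {x : E} (h : 2 < s x) : 0 < ∑ i, pd i u x ^ 2 := by
  have h0 := sq_sub_pos h
  have h1 := NN_pos (ne_pp h)
  have h2 := NN_pos (ne_neg_pp h)
  have e : ∀ i ∈ (Finset.univ : Finset (Fin 3)), pd i u x ^ 2 =
      (4 / Real.log 3 * (s x ^ 2 - 4)⁻¹) ^ 2 * pd i s x ^ 2 := by
    intro i _
    rw [pd_u h i]; ring
  rw [Finset.sum_congr rfl e, ← Finset.mul_sum, grad_s h]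
  have h3 := log3_pos
  positivity

theorem pot : S_POT := by
  refine ⟨u_smooth, fun x hx => u_harm hx, fun x hx => u_grad hx, ?_, ?_, ?_⟩
  · intro x hx
    unfold u
    rw [hx]
    have h3 := log3_pos
    rw [show ((4 : ℝ) + 2) / (4 - 2) = 3 by norm_num, div_self h3.ne', sub_self]
  · intro x hx
    unfold u
    have h3 := log3_pos
    have h2 : 0 < s x - 2 := by linarith
    have : Real.log ((s x + 2) / (s x - 2)) < Real.log 3 := by
      apply Real.log_lt_log (by positivity)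
      rw [div_lt_iff₀ h2]
      linarith
    rw [sub_pos, div_lt_one h3]
    exact this
  · intro x hx
    unfold u
    have h3 := log3_pos
    have h2 : 0 < s x - 2 := by linarith
    have a1 : 0 < Real.log ((s x + 2) / (s x - 2)) := by
      apply Real.log_pos
      rw [lt_div_iff₀ h2]
      linarith
    have a2 : Real.log ((s x + 2) / (s x - 2)) < 2 * Real.log 3 := by
      rw [← Real.log_rpow (by norm_num)]
      apply Real.log_lt_log (by positivity)
      rw [div_lt_iff₀ h2]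
      norm_num
      linarith
    have a3 : 0 < Real.log ((s x + 2) / (s x - 2)) / Real.log 3 := by positivity
    have a4 : Real.log ((s x + 2) / (s x - 2)) / Real.log 3 < 2 := by
      rw [div_lt_iff₀ h3]; exact a2
    rw [abs_lt]
    constructor <;> linarith

end

end Pool.Agent.K1H57.MC
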