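import Pool.Agent.K1H62.MC.Plan

set_option autoImplicit false

/-! Formulas for the derivatives of the sum of the distances from the foci and of the potential. -/

namespace Pool.Agent.K1H57.MC

open Pool.Agent.K1H62.MC
open MeasureTheory Filter Topology
open scoped ENNReal ContDiff

noncomputable section

/-- the distance from a point -/
def NN (a : E) (x : E) : ℝ := ‖x - a‖

/-- the Kronecker symbol -/
def kd (i j : Fin 3) : ℝ := if i = j then 1 else 0

lemma sum_kd_sq (f : Fin 3 → ℝ) (i : Fin 3) : ∑ j, kd i j * f j = f i := by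
  simp [kd]

lemma pd_coord (i j : Fin 3) (c : ℝ) (x : E) : pd i (fun y => y j - c) x = kd i j := by
  unfold pd kd
  have h : HasFDerivAt (fun y : E => y j - c) (EuclideanSpace.proj j : E →L[ℝ] ℝ) x := by
    have := (EuclideanSpace.proj j : E →L[ℝ] ℝ).hasFDerivAt (x := x)
    exact this.sub_const c
  rw [h.fderiv]
  show (EuclideanSpace.single i (1 : ℝ)) j = _
  rw [PiLp.single_apply]
  by_cases hij : i = j
  · simp [hij]
  · simp [hij, Ne.symm hij]

lemma diff_coord (j : Fin 3) (c : ℝ) (x : E) : DifferentiableAt ℝ (fun y : E => y j - c) x := by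
  have := (EuclideanSpace.proj j : E →L[ℝ] ℝ).hasFDerivAt (x := x)
  exact (this.sub_const c).differentiableAt

lemma NN_sq (a x : E) : NN a x ^ 2 = ∑ i, (x i - a i) ^ 2 := by
  unfold NN
  rw [EuclideanSpace.norm_eq, Real.sq_sqrt (Finset.sum_nonneg fun i _ => by positivity)]
  simp

lemma NN_pos {a x : E} (h : x ≠ a) : 0 < NN a x := by
  unfold NN
  exact norm_pos_iff.mpr (sub_ne_zero.mpr h)

lemma NN_eq (a x : E) : NN a x = Real.sqrt (∑ i, (x i - a i) ^ 2) := by
  rw [← NN_sq, Real.sqrt_sq (by unfold NN; exact norm_nonneg _)]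

lemma NN_smooth (a : E) : ContDiffOn ℝ ∞ (NN a) {x | x ≠ a} := by
  intro x hx
  apply ContDiffAt.contDiffWithinAt
  unfold NN
  exact (contDiffAt_id.sub contDiffAt_const).norm ℝ (sub_ne_zero.mpr hx)

lemma open_ne (a : E) : IsOpen {x : E | x ≠ a} := isOpen_ne

lemma NN_diff {a x : E} (h : x ≠ a) : DifferentiableAt ℝ (NN a) x :=
  diff_of (open_ne a) (NN_smooth a) h

lemma pd_NN_sq (a x : E) (i : Fin 3) : pd i (fun y => ∑ j, (y j - a j) ^ 2) x = 2 * (x i - a i) := by
  rw [pd_sum]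
  · have : ∀ j ∈ (Finset.univ : Finset (Fin 3)), pd i (fun y => (y j - a j) ^ 2) x =
        kd i j * (2 * (x j - a j)) := by
      intro j _
      rw [pd_pow i 2 (diff_coord j (a j) x), pd_coord]
      simp only [Nat.cast_ofNat, Nat.add_one_sub_one, pow_one]
      ring
    rw [Finset.sum_congr rfl this, sum_kd_sq (fun j => 2 * (x j - a j))]
  · intro j _
    exact (diff_coord j (a j) x).pow 2

lemma pd_NN {a x : E} (h : x ≠ a) (i : Fin 3) : pd i (NN a) x = (x i - a i) / NN a x := by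
  have h1 : pd i (fun y => NN a y ^ 2) x = 2 * (x i - a i) := by
    rw [← pd_NN_sq a x i]
    congr 1
    funext y
    exact NN_sq a y
  rw [pd_pow i 2 (NN_diff h)] at h1
  simp only [Nat.cast_ofNat, Nat.add_one_sub_one, pow_one] at h1
  have h0 := NN_pos h
  field_simp
  linarith

lemma pd_pd_NN {a x : E} (h : x ≠ a) (i j : Fin 3) :
    pd j (pd i (NN a)) x = kd j i / NN a x - (x i - a i) * (x j - a j) / NN a x ^ 3 := by
  have h1 : pd j (pd i (NN a)) x = pd j (fun y => (y i - a i) * (NN a y)⁻¹) x := by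
    apply pd_congr_set (open_ne a) (fun y hy => ?_) h
    simp only
    rw [pd_NN hy i, div_eq_mul_inv]
  have h0 := NN_pos h
  have hd : DifferentiableAt ℝ (fun y => (NN a y)⁻¹) x := (NN_diff h).inv h0.ne'
  rw [h1, pd_mul j (diff_coord i (a i) x) hd, pd_coord,
    pd_comp (φ := fun t => t⁻¹) j (NN_diff h) (hasDerivAt_inv h0.ne'), pd_NN h j]
  field_simp
  ring

lemma lap_NN {a x : E} (h : x ≠ a) : ∑ i, pd i (pd i (NN a)) x = 2 / NN a x := by
  have h0 := NN_pos h
  have h1 : ∀ i ∈ (Finset.univ : Finset (Fin 3)), pd i (pd i (NN a)) x =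
      1 / NN a x - (x i - a i) ^ 2 / NN a x ^ 3 := by
    intro i _
    rw [pd_pd_NN h i i]
    simp only [kd, if_true]
    ring
  rw [Finset.sum_congr rfl h1, Finset.sum_sub_distrib, ← Finset.sum_div, ← Finset.sum_div, ← NN_sq]
  simp only [Finset.sum_const, Finset.card_univ, Fintype.card_fin, nsmul_eq_mul, Nat.cast_ofNat]
  field_simp
  ring

lemma s_eq (x : E) : s x = NN pp x + NN (-pp) x := by
  unfold s NN; rw [sub_neg_eq_add]

lemma s_fun : s = fun x => NN pp x + NN (-pp) x := funext s_eq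

lemma norm_pp : ‖pp‖ = 1 := by
  unfold pp; simp

lemma ne_pp {x : E} (h : 2 < s x) : x ≠ pp := by
  rintro rfl
  unfold s at h
  rw [sub_self, norm_zero, zero_add, ← two_smul ℝ pp, norm_smul, norm_pp] at h
  norm_num at h

lemma ne_neg_pp {x : E} (h : 2 < s x) : x ≠ -pp := by
  rintro rfl
  unfold s at h
  rw [neg_add_cancel, norm_zero, add_zero, ← neg_add', norm_neg, ← two_smul ℝ pp, norm_smul, norm_pp] at h
  norm_num at h

lemma pd_s {x : E} (h : 2 < s x) (i : Fin 3) :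
    pd i s x = (x i - pp i) / NN pp x + (x i + pp i) / NN (-pp) x := by
  rw [s_fun, pd_add i (NN_diff (ne_pp h)) (NN_diff (ne_neg_pp h)), pd_NN (ne_pp h), pd_NN (ne_neg_pp h)]
  simp

lemma s_smooth : ContDiffOn ℝ ∞ s {x | 2 < s x} := by
  rw [s_fun]
  refine ContDiffOn.add ((NN_smooth pp).mono fun x hx => ?_) ((NN_smooth (-pp)).mono fun x hx => ?_)
  · apply ne_pp; rw [s_eq]; exact hx
  · apply ne_neg_pp; rw [s_eq]; exact hx

lemma s_diff {x : E} (h : 2 < s x) : DifferentiableAt ℝ s x := diff_of (open_s 2) s_smooth h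

lemma pd_pd_s {x : E} (h : 2 < s x) (i j : Fin 3) :
    pd j (pd i s) x = (kd j i / NN pp x - (x i - pp i) * (x j - pp j) / NN pp x ^ 3) +
      (kd j i / NN (-pp) x - (x i + pp i) * (x j + pp j) / NN (-pp) x ^ 3) := by
  have h1 : pd j (pd i s) x = pd j (fun y => pd i (NN pp) y + pd i (NN (-pp)) y) x := by
    apply pd_congr_set (open_s 2) (fun y hy => ?_) h
    rw [s_fun, pd_add i (NN_diff (ne_pp hy)) (NN_diff (ne_neg_pp hy))]
  rw [h1, pd_add j, pd_pd_NN (ne_pp h), pd_pd_NN (ne_neg_pp h)]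
  · simp
  · exact diff_of (open_ne pp) (pd_smooth (open_ne pp) (NN_smooth pp) i) (ne_pp h)
  · exact diff_of (open_ne (-pp)) (pd_smooth (open_ne (-pp)) (NN_smooth (-pp)) i) (ne_neg_pp h)

lemma lap_s {x : E} (h : 2 < s x) : ∑ i, pd i (pd i s) x = 2 / NN pp x + 2 / NN (-pp) x := by
  rw [← lap_NN (ne_pp h), ← lap_NN (ne_neg_pp h), ← Finset.sum_add_distrib]
  refine Finset.sum_congr rfl fun i _ => ?_
  rw [pd_pd_s h, pd_pd_NN (ne_pp h), pd_pd_NN (ne_neg_pp h)]
  simp

lemma pp_apply (i : Fin 3) : pp i = kd i 0 := by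
  unfold pp kd
  rw [PiLp.single_apply]

lemma NN1_sq (x : E) : NN pp x ^ 2 = (x 0 - 1) ^ 2 + x 1 ^ 2 + x 2 ^ 2 := by
  rw [NN_sq, Fin.sum_univ_three]
  simp [pp_apply, kd]

lemma NN2_sq (x : E) : NN (-pp) x ^ 2 = (x 0 + 1) ^ 2 + x 1 ^ 2 + x 2 ^ 2 := by
  rw [NN_sq, Fin.sum_univ_three]
  simp [pp_apply, kd]

/-- the square of the gradient of `s` -/
lemma grad_s {x : E} (h : 2 < s x) :
    ∑ i, pd i s x ^ 2 = (s x ^ 2 - 4) / (NN pp x * NN (-pp) x) := by
  have h1 := NN_pos (ne_pp h)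
  have h2 := NN_pos (ne_neg_pp h)
  have e1 := NN1_sq x
  have e2 := NN2_sq x
  rw [Fin.sum_univ_three, pd_s h, pd_s h, pd_s h, s_eq]
  simp only [pp_apply, kd]
  simp only [if_true, Fin.isValue, one_ne_zero, if_false, Fin.reduceEq, sub_zero, add_zero]
  generalize NN pp x = a at *
  generalize NN (-pp) x = b at *
  field_simp
  have h3 : ∀ A B : ℝ, A - B = 0 → A = B := fun A B h => by linarith
  apply h3
  have : a ^ 2 * ((x 0 + 1) ^ 2 + x 1 ^ 2 + x 2 ^ 2 - b ^ 2) = 0 := by rw [e2]; ring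
  linear_combination (b ^ 2) * (-e1 ) + a ^ 2 * (-e2) + a * b * (-e1 - e2)

end

end Pool.Agent.K1H57.MC
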